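import Mathlib

/-! # MP_a456c8_co: a pendant vertex attached at an extremum of the Fiedler vector need not be an
extremum

The graph `G` has the vertices `0, …, 7` and the eleven edges
`23, 14, 05, 45, 16, 36, 46, 07, 27, 57, 67`. The second smallest eigenvalue of its Laplacian is `1`,
it is simple, and the Fiedler vector is proportional to `(1, 1, -2, -2, 1, 1, 0, 0)`, so the vertex
`4` is an extremum. We attach a pendant vertex at `4` by an edge of weight
`x = 382843177920 / 2643816719 = 144.8…`. Then the second smallest eigenvalue is `20 / 23`, it is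
simple, and the value of the Fiedler vector at the new vertex lies strictly between its values at
the vertices `1` and `0`. -/

set_option autoImplicit false

open Matrix

namespace Pool.Agent.Results.MP_a456c8_co.NotExtremum

/-- The Laplacian `D - W` of a weighted graph with the weights `W i j` (`W i i = 0`). -/
def lap {V : Type} [Fintype V] [DecidableEq V] (W : V → V → ℝ) : Matrix V V ℝ :=
  fun i j => if i = j then ∑ k, W i k else - W i j

/-- `Φ` is a Fiedler vector, and the second smallest Laplacian eigenvalue (for a connected graph: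
the smallest positive one) is simple: `Φ` is a unit eigenvector for an eigenvalue `μ > 0`, every
positive eigenvalue is at least `μ`, and the eigenspace of `μ` is spanned by `Φ`. -/
def IsFiedler {V : Type} [Fintype V] [DecidableEq V] (W : V → V → ℝ) (Φ : V → ℝ) : Prop :=
  Φ ⬝ᵥ Φ = 1 ∧ ∃ μ : ℝ, 0 < μ ∧ lap W *ᵥ Φ = μ • Φ ∧
    (∀ (ν : ℝ) (y : V → ℝ), 0 < ν → y ≠ 0 → lap W *ᵥ y = ν • y → μ ≤ ν) ∧
    ∀ y : V → ℝ, lap W *ᵥ y = μ • y → ∃ c : ℝ, y = c • Φ

/-- `u` is an extremum of `Φ`: a largest or a smallest value is taken at `u`. -/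
def IsExtremum {V : Type} (Φ : V → ℝ) (u : V) : Prop := (∀ i, Φ i ≤ Φ u) ∨ ∀ i, Φ u ≤ Φ i

open Classical in
/-- The weights of an unweighted graph: `1` on the edges. -/
noncomputable def wt {V : Type} (G : SimpleGraph V) (i j : V) : ℝ := if G.Adj i j then 1 else 0

/-- The weights after attaching a new vertex `none` at `v` by an edge of weight `x`. -/
noncomputable def att {V : Type} [DecidableEq V] (G : SimpleGraph V) (v : V) (x : ℝ) :
    Option V → Option V → ℝ
  | some i, some j => wt G i j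
  | some i, none => if i = v then x else 0
  | none, some j => if j = v then x else 0
  | none, none => 0

/-! ### General facts -/

lemma isExtremum_smul {V : Type} {Φ : V → ℝ} {a : ℝ} (ha : 0 < a) (u : V) :
    IsExtremum (a • Φ) u ↔ IsExtremum Φ u := by
  unfold IsExtremum
  simp only [Pi.smul_apply, smul_eq_mul, mul_le_mul_iff_right₀ ha]

lemma isFiedler_of {V : Type} [Fintype V] [DecidableEq V] {W : V → V → ℝ} {φ : V → ℝ} {μ : ℝ}
    (hφ : 0 < φ ⬝ᵥ φ) (hμ : 0 < μ) (he : lap W *ᵥ φ = μ • φ)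
    (hmin : ∀ (ν : ℝ) (y : V → ℝ), 0 < ν → y ≠ 0 → lap W *ᵥ y = ν • y → μ ≤ ν)
    (hs : ∀ y : V → ℝ, lap W *ᵥ y = μ • y → ∃ c : ℝ, y = c • φ) :
    IsFiedler W ((√(φ ⬝ᵥ φ))⁻¹ • φ) := by
  have h0 : 0 < √(φ ⬝ᵥ φ) := Real.sqrt_pos.2 hφ
  refine ⟨?_, μ, hμ, ?_, hmin, ?_⟩
  · rw [dotProduct_smul, smul_dotProduct, smul_eq_mul, smul_eq_mul]
    have h1 : √(φ ⬝ᵥ φ) * √(φ ⬝ᵥ φ) = φ ⬝ᵥ φ := Real.mul_self_sqrt hφ.le
    field_simp
    nlinarith
  · rw [mulVec_smul, he, smul_comm]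
  · intro y hy
    obtain ⟨c, hc⟩ := hs y hy
    refine ⟨c * √(φ ⬝ᵥ φ), ?_⟩
    rw [smul_smul, mul_assoc, mul_inv_cancel₀ h0.ne', mul_one]
    exact hc

lemma zero_of_sum {m : ℕ} (d l : Fin m → ℝ) (hd : ∀ k, 0 < d k) (h : ∑ k, d k * l k ^ 2 = 0) :
    ∀ k, l k = 0 := by
  intro k
  have := (Finset.sum_eq_zero_iff_of_nonneg
    (fun i _ => mul_nonneg (hd i).le (sq_nonneg (l i)))).1 h k (Finset.mem_univ k)
  rcases mul_eq_zero.1 this with h | h
  · exact absurd h (hd k).ne'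
  · exact pow_eq_zero_iff (two_ne_zero) |>.1 h

/-! ### The two quadratic forms -/

lemma sos8 (y0 y1 y2 y3 y4 y5 y6 y7 ν : ℝ)
    (h0 : 2*y0 + (-1)*y5 + (-1)*y7 = ν * y0)
    (h1 : 2*y1 + (-1)*y4 + (-1)*y6 = ν * y1)
    (h2 : 2*y2 + (-1)*y3 + (-1)*y7 = ν * y2)
    (h3 : (-1)*y2 + 2*y3 + (-1)*y6 = ν * y3)
    (h4 : (-1)*y1 + 3*y4 + (-1)*y5 + (-1)*y6 = ν * y4)
    (h5 : (-1)*y0 + (-1)*y4 + 3*y5 + (-1)*y7 = ν * y5)
    (h6 : (-1)*y1 + (-1)*y3 + (-1)*y4 + 4*y6 + (-1)*y7 = ν * y6)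
    (h7 : (-1)*y0 + (-1)*y2 + (-1)*y5 + (-1)*y6 + 4*y7 = ν * y7)
    (hs : y0 + y1 + y2 + y3 + y4 + y5 + y6 + y7 = 0) :
    (ν - 1) * (y0 ^ 2 + y1 ^ 2 + y2 ^ 2 + y3 ^ 2 + y4 ^ 2 + y5 ^ 2 + y6 ^ 2 + y7 ^ 2) =
      2 * (y0 + (1/2)*y1 + (1/2)*y2 + (1/2)*y3 + (1/2)*y4 + (1/2)*y6) ^ 2 + (3/2) * (y1 + (1/3)*y2 + (1/3)*y3 + (-1/3)*y4 + (2/3)*y5 + (-1/3)*y6 + (2/3)*y7) ^ 2 + (4/3) * (y2 + (-1/2)*y3 + (1/2)*y4 + (1/2)*y5 + (1/2)*y6 + (-1/4)*y7) ^ 2 + 1 * (y3 + y4 + y5 + (1/2)*y7) ^ 2 + 1 * (y4 + (-1)*y5 + (-1)*y6 + y7) ^ 2 + 2 * (y6 + (3/4)*y7) ^ 2 + (7/8) * (y7) ^ 2 := by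
  linear_combination (-1 : ℝ) * (y0 * h0 + y1 * h1 + y2 * h2 + y3 * h3 + y4 * h4 + y5 * h5 + y6 * h6 + y7 * h7) + ((-1) * (y0 + y1 + y2 + y3 + y4 + y5 + y6 + y7)) * hs

lemma sos9 (y0 y1 y2 y3 y4 y5 y6 y7 yn ν : ℝ)
    (h0 : 2*y0 + (-1)*y5 + (-1)*y7 = ν * y0)
    (h1 : 2*y1 + (-1)*y4 + (-1)*y6 = ν * y1)
    (h2 : 2*y2 + (-1)*y3 + (-1)*y7 = ν * y2)
    (h3 : (-1)*y2 + 2*y3 + (-1)*y6 = ν * y3)
    (h4 : (-1)*y1 + (390774628077/2643816719)*y4 + (-1)*y5 + (-1)*y6 + (-382843177920/2643816719)*yn = ν * y4)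
    (h5 : (-1)*y0 + (-1)*y4 + 3*y5 + (-1)*y7 = ν * y5)
    (h6 : (-1)*y1 + (-1)*y3 + (-1)*y4 + 4*y6 + (-1)*y7 = ν * y6)
    (h7 : (-1)*y0 + (-1)*y2 + (-1)*y5 + (-1)*y6 + 4*y7 = ν * y7)
    (h8 : (-382843177920/2643816719)*y4 + (382843177920/2643816719)*yn = ν * yn)
    (hs : y0 + y1 + y2 + y3 + y4 + y5 + y6 + y7 + yn = 0) :
    (ν - (20/23)) * (y0 ^ 2 + y1 ^ 2 + y2 ^ 2 + y3 ^ 2 + y4 ^ 2 + y5 ^ 2 + y6 ^ 2 + y7 ^ 2 + yn ^ 2) =
      (75/46) * ((23/75)*y0 + (23/75)*y1 + (-23/75)*y2 + y3 + (23/75)*y4 + (23/75)*y5 + (-23/75)*y6 + (23/75)*y7 + (23/75)*yn) ^ 2 + (2548/1725) * (y0 + (23/98)*y1 + (23/52)*y2 + (23/98)*y4 + (-23/52)*y5 + (23/52)*y6 + (-23/52)*y7 + (23/98)*yn) ^ 2 + (1421/1196) * ((598/1421)*y1 + y2 + (598/1421)*y4 + (23/29)*y5 + (69/1421)*y6 + (-69/1421)*y7 + (598/1421)*yn) ^ 2 + (104106/32683) * ((17135/104106)*y1 + (17135/104106)*y4 + (-14651/52053)*y5 + (-299/17351)*y6 + y7 + (17135/104106)*yn) ^ 2 + (128946835/117327462)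 * (y1 + (-121011671/128946835)*y4 + (29450764/128946835)*y5 + (-81144/173083)*y6 + (-3684209/128946835)*yn) ^ 2 + (11715120/3980909) * ((-55223/162710)*y4 + (55223/162710)*y5 + y6 + (23/144)*yn) ^ 2 + (44169277/55760717) * ((-48634121/220846385)*y4 + y5 + (55012251/441692770)*yn) ^ 2 + (60459800483939951667383/420391702795471786800) * ((-19142158896/19027210343)*y4 + yn) ^ 2 := by
  linear_combination (-1 : ℝ) * (y0 * h0 + y1 * h1 + y2 * h2 + y3 * h3 + y4 * h4 + y5 * h5 + y6 * h6 + y7 * h7 + yn * h8) + ((-1/2) * (y0 + y1 + y2 + y3 + y4 + y5 + y6 + y7 + yn)) * hs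

/-! ### The graph -/

/-- The adjacency of the graph `G`. -/
def adjB (i j : Fin 8) : Bool :=
  (i, j) ∈ ([(2, 3), (1, 4), (0, 5), (4, 5), (1, 6), (3, 6), (4, 6), (0, 7), (2, 7), (5, 7), (6, 7),
    (3, 2), (4, 1), (5, 0), (5, 4), (6, 1), (6, 3), (6, 4), (7, 0), (7, 2), (7, 5), (7, 6)] :
    List (Fin 8 × Fin 8))

/-- The graph `G`. -/
def G : SimpleGraph (Fin 8) where
  Adj i j := adjB i j = true
  symm := ⟨by decide⟩
  loopless := ⟨by decide⟩

lemma wt_G (i j : Fin 8) : wt G i j = if adjB i j = true then 1 else 0 := by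
  by_cases h : adjB i j = true
  · rw [if_pos h]
    exact if_pos h
  · rw [if_neg h]
    exact if_neg h

lemma conn : G.Connected := by
  have h : ∀ i j, adjB i j = true → G.Reachable i j := fun i j h =>
    SimpleGraph.Adj.reachable h
  have h0 : ∀ i : Fin 8, G.Reachable 4 i := by
    have a5 := h 4 5 (by decide)
    have a6 := h 4 6 (by decide)
    have a1 := h 4 1 (by decide)
    have a0 := a5.trans (h 5 0 (by decide))
    have a7 := a5.trans (h 5 7 (by decide))
    have a3 := a6.trans (h 6 3 (by decide))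
    have a2 := a7.trans (h 7 2 (by decide))
    intro i
    fin_cases i
    · exact a0
    · exact a1
    · exact a2
    · exact a3
    · exact SimpleGraph.Reachable.refl _
    · exact a5
    · exact a6
    · exact a7
  exact ⟨fun i j => (h0 i).symm.trans (h0 j)⟩

/-- The Laplacian of `G` applied to a vector. -/
lemma lap_G (y : Fin 8 → ℝ) : lap (wt G) *ᵥ y =
    ![2 * y 0 - y 5 - y 7, 2 * y 1 - y 4 - y 6, 2 * y 2 - y 3 - y 7, 2 * y 3 - y 2 - y 6,
      3 * y 4 - y 1 - y 5 - y 6, 3 * y 5 - y 0 - y 4 - y 7, 4 * y 6 - y 1 - y 3 - y 4 - y 7,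
      4 * y 7 - y 0 - y 2 - y 5 - y 6] := by
  ext i
  fin_cases i <;>
  · simp only [mulVec, dotProduct, Fin.sum_univ_eight, lap, wt_G]
    simp [adjB]
    ring

lemma sum_lap {V : Type} [Fintype V] [DecidableEq V] {W : V → V → ℝ} (hs : ∀ i j, W i j = W j i)
    (hd : ∀ i, W i i = 0) (y : V → ℝ) : ∑ i, (lap W *ᵥ y) i = 0 := by
  have h : ∀ i, (lap W *ᵥ y) i = ∑ k, W i k * (y i - y k) := by
    intro i
    simp only [mulVec, dotProduct, lap]
    have h1 : ∀ j, (if i = j then ∑ k, W i k else - W i j) * y j =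
        (if i = j then (∑ k, W i k) * y i else 0) - W i j * y j := by
      intro j
      split_ifs with hij
      · subst hij
        rw [hd i]
        ring
      · ring
    rw [Finset.sum_congr rfl fun j _ => h1 j, Finset.sum_sub_distrib, Finset.sum_ite_eq,
      if_pos (Finset.mem_univ i), Finset.sum_mul, ← Finset.sum_sub_distrib]
    exact Finset.sum_congr rfl fun k _ => by ring
  have h2 : ∑ i, ∑ k, W i k * (y i - y k) = ∑ i, ∑ k, W i k * (y k - y i) := by
    rw [Finset.sum_comm]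
    exact Finset.sum_congr rfl fun i _ => Finset.sum_congr rfl fun k _ => by rw [hs k i]
  have h3 : ∑ i, ∑ k, W i k * (y k - y i) = - ∑ i, ∑ k, W i k * (y i - y k) := by
    rw [← Finset.sum_neg_distrib]
    refine Finset.sum_congr rfl fun i _ => ?_
    rw [← Finset.sum_neg_distrib]
    exact Finset.sum_congr rfl fun k _ => by ring
  simp only [h]
  linarith

lemma sum_eq_zero {V : Type} [Fintype V] [DecidableEq V] {W : V → V → ℝ}
    (hs : ∀ i j, W i j = W j i) (hd : ∀ i, W i i = 0) {ν : ℝ} {y : V → ℝ} (hν : 0 < ν)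
    (h : lap W *ᵥ y = ν • y) : ∑ i, y i = 0 := by
  have h1 := sum_lap hs hd y
  rw [h] at h1
  simp only [Pi.smul_apply, smul_eq_mul, ← Finset.mul_sum] at h1
  rcases mul_eq_zero.1 h1 with h1 | h1
  · exact absurd h1 hν.ne'
  · exact h1

/-! ### The graph without the new vertex -/

/-- The Fiedler vector of `G`, up to a factor. -/
def phi : Fin 8 → ℝ := ![1, 1, -2, -2, 1, 1, 0, 0]

lemma wt_symm (i j : Fin 8) : wt G i j = wt G j i := by
  rw [wt_G, wt_G]
  have : adjB i j = adjB j i := by revert i j; decide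
  rw [this]

lemma wt_diag (i : Fin 8) : wt G i i = 0 := by
  rw [wt_G]
  have : adjB i i = false := by revert i; decide
  rw [this]
  simp

lemma coords {ν : ℝ} {y : Fin 8 → ℝ} (h : lap (wt G) *ᵥ y = ν • y) :
    2 * y 0 - y 5 - y 7 = ν * y 0 ∧ 2 * y 1 - y 4 - y 6 = ν * y 1 ∧
    2 * y 2 - y 3 - y 7 = ν * y 2 ∧ 2 * y 3 - y 2 - y 6 = ν * y 3 ∧
    3 * y 4 - y 1 - y 5 - y 6 = ν * y 4 ∧ 3 * y 5 - y 0 - y 4 - y 7 = ν * y 5 ∧
    4 * y 6 - y 1 - y 3 - y 4 - y 7 = ν * y 6 ∧ 4 * y 7 - y 0 - y 2 - y 5 - y 6 = ν * y 7 := by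
  rw [lap_G] at h
  exact ⟨congrFun h 0, congrFun h 1, congrFun h 2, congrFun h 3, congrFun h 4, congrFun h 5,
    congrFun h 6, congrFun h 7⟩

lemma key8 {ν : ℝ} {y : Fin 8 → ℝ} (hν : 0 < ν) (h : lap (wt G) *ᵥ y = ν • y) :
    (ν - 1) * ∑ i, y i ^ 2 = ∑ k, (![2, 3/2, 4/3, 1, 1, 2, 7/8] : Fin 7 → ℝ) k *
      (![y 0 + (1/2)*y 1 + (1/2)*y 2 + (1/2)*y 3 + (1/2)*y 4 + (1/2)*y 6,
        y 1 + (1/3)*y 2 + (1/3)*y 3 + (-1/3)*y 4 + (2/3)*y 5 + (-1/3)*y 6 + (2/3)*y 7,
        y 2 + (-1/2)*y 3 + (1/2)*y 4 + (1/2)*y 5 + (1/2)*y 6 + (-1/4)*y 7,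
        y 3 + y 4 + y 5 + (1/2)*y 7, y 4 + (-1)*y 5 + (-1)*y 6 + y 7, y 6 + (3/4)*y 7, y 7] :
        Fin 7 → ℝ) k ^ 2 := by
  have hs := sum_eq_zero wt_symm wt_diag hν h
  obtain ⟨h0, h1, h2, h3, h4, h5, h6, h7⟩ := coords h
  rw [Fin.sum_univ_eight] at hs
  have := sos8 (y 0) (y 1) (y 2) (y 3) (y 4) (y 5) (y 6) (y 7) ν (by linarith) (by linarith)
    (by linarith) (by linarith) (by linarith) (by linarith) (by linarith) (by linarith) hs
  rw [Fin.sum_univ_eight, Fin.sum_univ_seven, this]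
  simp

lemma fiedler8 : IsFiedler (wt G) ((√(phi ⬝ᵥ phi))⁻¹ • phi) := by
  have hpos : ∀ k, 0 < (![2, 3/2, 4/3, 1, 1, 2, 7/8] : Fin 7 → ℝ) k := by
    intro k
    fin_cases k <;> norm_num
  refine isFiedler_of (μ := 1) ?_ one_pos ?_ ?_ ?_
  · simp [dotProduct, Fin.sum_univ_eight, phi]
    norm_num
  · rw [lap_G]
    ext i
    fin_cases i <;> simp [phi] <;> norm_num
  · intro ν y hν hy h
    by_contra hlt
    push Not at hlt
    have hk := key8 hν h
    have h1 : 0 < ∑ i, y i ^ 2 := by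
      obtain ⟨i, hi⟩ := Function.ne_iff.1 hy
      exact Finset.sum_pos' (fun i _ => sq_nonneg _) ⟨i, Finset.mem_univ i, by
        have : y i ≠ 0 := hi
        positivity⟩
    have h2 := Finset.sum_nonneg fun k (_ : k ∈ Finset.univ) => mul_nonneg (hpos k).le
      (sq_nonneg ((![y 0 + (1/2)*y 1 + (1/2)*y 2 + (1/2)*y 3 + (1/2)*y 4 + (1/2)*y 6,
        y 1 + (1/3)*y 2 + (1/3)*y 3 + (-1/3)*y 4 + (2/3)*y 5 + (-1/3)*y 6 + (2/3)*y 7,
        y 2 + (-1/2)*y 3 + (1/2)*y 4 + (1/2)*y 5 + (1/2)*y 6 + (-1/4)*y 7,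
        y 3 + y 4 + y 5 + (1/2)*y 7, y 4 + (-1)*y 5 + (-1)*y 6 + y 7, y 6 + (3/4)*y 7, y 7] :
        Fin 7 → ℝ) k))
    rw [← hk] at h2
    nlinarith
  · intro y h
    have hk := key8 one_pos h
    rw [sub_self, zero_mul] at hk
    have hz := zero_of_sum _ _ hpos hk.symm
    have z0 := hz 0
    have z1 := hz 1
    have z2 := hz 2
    have z3 := hz 3
    have z4 := hz 4
    have z5 := hz 5
    have z6 := hz 6
    simp at z0 z1 z2 z3 z4 z5 z6
    refine ⟨y 5, ?_⟩
    ext i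
    fin_cases i <;> simp [phi] <;> linarith

/-! ### The graph with the new vertex -/

/-- The weight of the new edge. -/
noncomputable def X : ℝ := 382843177920/2643816719

/-- The Fiedler vector of the graph with the new vertex, up to a factor. -/
def psi : Option (Fin 8) → ℝ
  | some i => (![-6277448857, 19297517063, -26183761177, -20696803897, 19027210343, 1805983943, 2787374163, -8902230477] : Fin 8 → ℝ) i
  | none => 19142158896

lemma att_symm (i j : Option (Fin 8)) : att G 4 X i j = att G 4 X j i := by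
  rcases i with _ | i <;> rcases j with _ | j
  · rfl
  · rfl
  · rfl
  · exact wt_symm i j

lemma att_diag (i : Option (Fin 8)) : att G 4 X i i = 0 := by
  rcases i with _ | i
  · rfl
  · exact wt_diag i

lemma lap_att (y : Option (Fin 8) → ℝ) :
    (lap (att G 4 X) *ᵥ y) (some 0) = 2*y (some 0) + (-1)*y (some 5) + (-1)*y (some 7) ∧
    (lap (att G 4 X) *ᵥ y) (some 1) = 2*y (some 1) + (-1)*y (some 4) + (-1)*y (some 6) ∧
    (lap (att G 4 X) *ᵥ y) (some 2) = 2*y (some 2) + (-1)*y (some 3) + (-1)*y (some 7) ∧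
    (lap (att G 4 X) *ᵥ y) (some 3) = (-1)*y (some 2) + 2*y (some 3) + (-1)*y (some 6) ∧
    (lap (att G 4 X) *ᵥ y) (some 4) = (-1)*y (some 1) + (390774628077/2643816719)*y (some 4) + (-1)*y (some 5) + (-1)*y (some 6) + (-382843177920/2643816719)*y none ∧
    (lap (att G 4 X) *ᵥ y) (some 5) = (-1)*y (some 0) + (-1)*y (some 4) + 3*y (some 5) + (-1)*y (some 7) ∧
    (lap (att G 4 X) *ᵥ y) (some 6) = (-1)*y (some 1) + (-1)*y (some 3) + (-1)*y (some 4) + 4*y (some 6) + (-1)*y (some 7) ∧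
    (lap (att G 4 X) *ᵥ y) (some 7) = (-1)*y (some 0) + (-1)*y (some 2) + (-1)*y (some 5) + (-1)*y (some 6) + 4*y (some 7) ∧
    (lap (att G 4 X) *ᵥ y) (none) = (-382843177920/2643816719)*y (some 4) + (382843177920/2643816719)*y none := by
  refine ⟨?_, ?_, ?_, ?_, ?_, ?_, ?_, ?_, ?_⟩ <;>
  · simp only [mulVec, dotProduct, Fintype.sum_option, Fin.sum_univ_eight, lap, att, wt_G]
    simp [adjB, X]
    try ring_nf
    try simp

lemma key9 {ν : ℝ} {y : Option (Fin 8) → ℝ} (hν : 0 < ν) (h : lap (att G 4 X) *ᵥ y = ν • y) :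
    (ν - 20/23) * ∑ i, y i ^ 2 = ∑ k, (![75/46, 2548/1725, 1421/1196, 104106/32683, 128946835/117327462, 11715120/3980909, 44169277/55760717, 60459800483939951667383/420391702795471786800] : Fin 8 → ℝ) k *
      (![(23/75)*y (some 0) + (23/75)*y (some 1) + (-23/75)*y (some 2) + y (some 3) + (23/75)*y (some 4) + (23/75)*y (some 5) + (-23/75)*y (some 6) + (23/75)*y (some 7) + (23/75)*y none,
        y (some 0) + (23/98)*y (some 1) + (23/52)*y (some 2) + (23/98)*y (some 4) + (-23/52)*y (some 5) + (23/52)*y (some 6) + (-23/52)*y (some 7) + (23/98)*y none,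
        (598/1421)*y (some 1) + y (some 2) + (598/1421)*y (some 4) + (23/29)*y (some 5) + (69/1421)*y (some 6) + (-69/1421)*y (some 7) + (598/1421)*y none,
        (17135/104106)*y (some 1) + (17135/104106)*y (some 4) + (-14651/52053)*y (some 5) + (-299/17351)*y (some 6) + y (some 7) + (17135/104106)*y none,
        y (some 1) + (-121011671/128946835)*y (some 4) + (29450764/128946835)*y (some 5) + (-81144/173083)*y (some 6) + (-3684209/128946835)*y none,
        (-55223/162710)*y (some 4) + (55223/162710)*y (some 5) + y (some 6) + (23/144)*y none,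
        (-48634121/220846385)*y (some 4) + y (some 5) + (55012251/441692770)*y none,
        (-19142158896/19027210343)*y (some 4) + y none] :
        Fin 8 → ℝ) k ^ 2 := by
  have hs := sum_eq_zero att_symm att_diag hν h
  obtain ⟨h0, h1, h2, h3, h4, h5, h6, h7, h8⟩ := lap_att y
  rw [h] at h0 h1 h2 h3 h4 h5 h6 h7 h8
  simp only [Pi.smul_apply, smul_eq_mul] at h0 h1 h2 h3 h4 h5 h6 h7 h8
  rw [Fintype.sum_option, Fin.sum_univ_eight] at hs
  have := sos9 (y (some 0)) (y (some 1)) (y (some 2)) (y (some 3)) (y (some 4)) (y (some 5))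
    (y (some 6)) (y (some 7)) (y none) ν (by linarith) (by linarith) (by linarith) (by linarith)
    (by linarith) (by linarith) (by linarith) (by linarith) (by linarith) (by linarith)
  rw [Fintype.sum_option, Fin.sum_univ_eight, Fin.sum_univ_eight,
    show y none ^ 2 + (y (some 0) ^ 2 + y (some 1) ^ 2 + y (some 2) ^ 2 + y (some 3) ^ 2 +
      y (some 4) ^ 2 + y (some 5) ^ 2 + y (some 6) ^ 2 + y (some 7) ^ 2) = y (some 0) ^ 2 +
      y (some 1) ^ 2 + y (some 2) ^ 2 + y (some 3) ^ 2 + y (some 4) ^ 2 + y (some 5) ^ 2 +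
      y (some 6) ^ 2 + y (some 7) ^ 2 + y none ^ 2 by ring, this]
  simp

lemma fiedler9 : IsFiedler (att G 4 X) ((√(psi ⬝ᵥ psi))⁻¹ • psi) := by
  have hpos : ∀ k, 0 < (![75/46, 2548/1725, 1421/1196, 104106/32683, 128946835/117327462, 11715120/3980909, 44169277/55760717, 60459800483939951667383/420391702795471786800] : Fin 8 → ℝ) k := by
    intro k
    fin_cases k <;> norm_num
  refine isFiedler_of (μ := 20/23) ?_ (by norm_num) ?_ ?_ ?_
  · simp [dotProduct, Fintype.sum_option, Fin.sum_univ_eight, psi]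
    norm_num
  · obtain ⟨h0, h1, h2, h3, h4, h5, h6, h7, h8⟩ := lap_att psi
    ext i
    rcases i with _ | i
    · rw [h8]
      simp [psi]
      norm_num
    · fin_cases i
      · exact h0.trans (by simp [psi]; norm_num)
      · exact h1.trans (by simp [psi]; norm_num)
      · exact h2.trans (by simp [psi]; norm_num)
      · exact h3.trans (by simp [psi]; norm_num)
      · exact h4.trans (by simp [psi]; norm_num)
      · exact h5.trans (by simp [psi]; norm_num)
      · exact h6.trans (by simp [psi]; norm_num)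
      · exact h7.trans (by simp [psi]; norm_num)
  · intro ν y hν hy h
    by_contra hlt
    push Not at hlt
    have hk := key9 hν h
    have h1 : 0 < ∑ i, y i ^ 2 := by
      obtain ⟨i, hi⟩ := Function.ne_iff.1 hy
      exact Finset.sum_pos' (fun i _ => sq_nonneg _) ⟨i, Finset.mem_univ i, by
        have : y i ≠ 0 := hi
        positivity⟩
    have h2 := Finset.sum_nonneg fun k (_ : k ∈ Finset.univ) => mul_nonneg (hpos k).le
      (sq_nonneg ((![(23/75)*y (some 0) + (23/75)*y (some 1) + (-23/75)*y (some 2) + y (some 3) + (23/75)*y (some 4) + (23/75)*y (some 5) + (-23/75)*y (some 6) + (23/75)*y (some 7) + (23/75)*y none,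
        y (some 0) + (23/98)*y (some 1) + (23/52)*y (some 2) + (23/98)*y (some 4) + (-23/52)*y (some 5) + (23/52)*y (some 6) + (-23/52)*y (some 7) + (23/98)*y none,
        (598/1421)*y (some 1) + y (some 2) + (598/1421)*y (some 4) + (23/29)*y (some 5) + (69/1421)*y (some 6) + (-69/1421)*y (some 7) + (598/1421)*y none,
        (17135/104106)*y (some 1) + (17135/104106)*y (some 4) + (-14651/52053)*y (some 5) + (-299/17351)*y (some 6) + y (some 7) + (17135/104106)*y none,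
        y (some 1) + (-121011671/128946835)*y (some 4) + (29450764/128946835)*y (some 5) + (-81144/173083)*y (some 6) + (-3684209/128946835)*y none,
        (-55223/162710)*y (some 4) + (55223/162710)*y (some 5) + y (some 6) + (23/144)*y none,
        (-48634121/220846385)*y (some 4) + y (some 5) + (55012251/441692770)*y none,
        (-19142158896/19027210343)*y (some 4) + y none] :
        Fin 8 → ℝ) k))
    rw [← hk] at h2
    nlinarith
  · intro y h
    have hk := key9 (by norm_num) h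
    rw [sub_self, zero_mul] at hk
    have hz := zero_of_sum _ _ hpos hk.symm
    have z0 := hz 0
    have z1 := hz 1
    have z2 := hz 2
    have z3 := hz 3
    have z4 := hz 4
    have z5 := hz 5
    have z6 := hz 6
    have z7 := hz 7
    simp at z0 z1 z2 z3 z4 z5 z6 z7
    refine ⟨y (some 4) / 19027210343, ?_⟩
    ext i
    rcases i with _ | i
    · simp [psi]
      linarith
    · fin_cases i <;> simp [psi] <;> linarith

/-- A pendant vertex attached at an extremum of the Fiedler vector need not be an extremum. -/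
theorem result : ∃ G : SimpleGraph (Fin 8), G.Connected ∧ ∃ (v : Fin 8) (Φ : Fin 8 → ℝ),
    IsFiedler (wt G) Φ ∧ IsExtremum Φ v ∧ ∃ x : ℝ, 0 < x ∧ ∃ Ψ : Option (Fin 8) → ℝ,
      IsFiedler (att G v x) Ψ ∧ ¬ IsExtremum Ψ none := by
  refine ⟨G, conn, 4, _, fiedler8, ?_, X, by norm_num [X], _, fiedler9, ?_⟩
  · have h : 0 < phi ⬝ᵥ phi := by
      simp [dotProduct, Fin.sum_univ_eight, phi]
      norm_num
    rw [isExtremum_smul (inv_pos.2 (Real.sqrt_pos.2 h))]
    left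
    intro i
    fin_cases i <;> simp [phi] <;> norm_num
  · have h : 0 < psi ⬝ᵥ psi := by
      simp [dotProduct, Fintype.sum_option, Fin.sum_univ_eight, psi]
      norm_num
    rw [isExtremum_smul (inv_pos.2 (Real.sqrt_pos.2 h))]
    rintro (h | h)
    · have := h (some 1)
      simp [psi] at this
      norm_num at this
    · have := h (some 0)
      simp [psi] at this
      norm_num at this

end Pool.Agent.Results.MP_a456c8_co.NotExtremum
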